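import Pool.Agent.TH124.CC.Fine

/-! Job CC-G4 (project of helper317 on MP_86dbc7_gt): assembly. -/

set_option autoImplicit false
set_option linter.unusedSectionVars false

universe u

namespace Pool.Agent.TH317.CC

namespace H124

open Metric Set

section
variable {E : Type} [NormedAddCommGroup E] [NormedSpace ℝ E] {M : Type u} [MetricSpace M]
  {D Λ : Type u} [LinearOrder Λ] [Inhabited D]
  {G : Rib D M Λ} {Fc : Set (List D)} {J : Type u} {cell : J → Set M} {inC : J → D → Prop}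
  {U : Set M} {ρ : ℝ}

lemma grid_mem {n k : ℕ} (hn : 0 < n) (hk : k ≤ n) : (k : ℝ) / n ∈ Icc (0 : ℝ) 1 := by
  have : (0 : ℝ) < n := by exact_mod_cast hn
  refine ⟨by positivity, ?_⟩
  rw [div_le_one this]
  exact_mod_cast hk

lemma grid_dist {n k k' : ℕ} (hn : 0 < n) (h1 : k ≤ k' + 1) (h2 : k' ≤ k + 1) :
    dist ((k : ℝ) / n) ((k' : ℝ) / n) ≤ 1 / n := by
  have hn' : (0 : ℝ) < n := by exact_mod_cast hn
  rw [Real.dist_eq, ← sub_div, abs_div, abs_of_pos hn']
  apply div_le_div_of_nonneg_right _ hn'.le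
  rw [abs_le]
  have h1' : (k : ℝ) ≤ k' + 1 := by exact_mod_cast h1
  have h2' : (k' : ℝ) ≤ k + 1 := by exact_mod_cast h2
  constructor <;> linarith

/-- connection of vertices -/
lemma conn_part {C : NNReal} {R : ℝ} (hC1 : 1 ≤ C) (x : M) {φ : M → E} {ψ : E → M}
    (hch : Cht E C R x φ ψ) (a b : ℝ) (hbR : b ≤ R) (hρ : C * (C * b) + ρ ≤ a / 2)
    (hρ0 : 0 ≤ ρ) (hC : CellSys G Fc cell inC U ρ) (hU : ball x (C * (C * b)) ⊆ U) (d d' : D)
    (hd : dist x (G.tl d) < b) (hd' : dist x (G.tl d') < b) :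
    ∃ w, Walk G (G.tl d) (G.tl d') w ∧
      ∀ e ∈ w, dist x (G.tl e) < a / 2 ∧ dist x (G.hd e) < a / 2 := by
  obtain ⟨hc, hcd, hc0, hc1, -⟩ := seg hch hC1 (X := ℝ) (fun _ => G.tl d) (fun _ => G.tl d')
    continuous_const continuous_const b hbR (fun _ => hd) (fun _ => hd') id continuous_id
  obtain ⟨c, hcdef⟩ : ∃ c : ℝ → M, c = fun p : ℝ =>
      ψ (AffineMap.lineMap (φ (G.tl d)) (φ (G.tl d')) (clp (id p))) := ⟨_, rfl⟩
  have hc' : Continuous c := by rw [hcdef]; exact hc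
  have hcd' : ∀ p, dist x (c p) < C * (C * b) := by rw [hcdef]; exact hcd
  have hc0' : c 0 = G.tl d := by rw [hcdef]; exact hc0 0 rfl
  have hc1' : c 1 = G.tl d' := by rw [hcdef]; exact hc1 1 rfl
  have hcU : ∀ p, c p ∈ U := fun p => hU (by rw [mem_ball, dist_comm]; exact hcd' p)
  obtain ⟨δ, hδ, lab, hlab1, hlab2⟩ := labels hC (Icc (0 : ℝ) 1) isCompact_Icc c hc'
    (fun p _ => hcU p) [d, d'] (by
      intro e he
      simp only [List.mem_cons, List.not_mem_nil, or_false] at he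
      rcases he with rfl | rfl
      · rw [← hc0']; exact hcU 0
      · rw [← hc1']; exact hcU 1)
  obtain ⟨n', hn'⟩ := exists_nat_one_div_lt hδ
  obtain ⟨n, hn⟩ : ∃ n, n = n' + 1 := ⟨_, rfl⟩
  have hn0 : 0 < n := by omega
  have hnδ : 1 / (n : ℝ) < δ := by rw [hn]; push_cast; exact hn'
  have hjex : ∀ l : ℕ, ∃ j, c ((l : ℝ) / n) ∈ cell j := fun l => hC.cover _ (hcU _)
  choose j hj using hjex
  have hjB : ∀ l, cell (j l) ⊆ ball x (a / 2) := by
    intro l y hy
    rw [mem_ball, dist_comm]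
    have e1 := hC.diam _ _ (hj l) _ hy
    have e2 := hcd' ((l : ℝ) / n)
    have e3 := dist_triangle x (c ((l : ℝ) / n)) y
    linarith
  have hlabj : ∀ l l', l ≤ n → l ≤ l' + 1 → l' ≤ l + 1 →
      G.tl (lab ((l : ℝ) / n)) ∈ cell (j l') := by
    intro l l' hl h1 h2
    exact hlab1 _ (grid_mem hn0 hl) _ ((grid_dist hn0 h2 h1).trans_lt hnδ) _ (hj l')
  have hwex : ∀ l, ∃ w, l < n → InW G inC (j l) (G.tl (lab ((l : ℝ) / n)))
      (G.tl (lab (((l + 1 : ℕ) : ℝ) / n))) w := by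
    intro l
    by_cases hl : l < n
    · obtain ⟨w, h1, h2⟩ := hC.conn (j l) _ _ (hlabj l l hl.le (by omega) (by omega))
        (hlabj (l + 1) l (by omega) (by omega) (by omega))
      exact ⟨w, fun _ => ⟨h1, h2⟩⟩
    · exact ⟨[], fun h => absurd h hl⟩
  choose w hw using hwex
  have hfin := cat_ok (G := G) (B := ball x (a / 2)) (w := w)
    (v := fun l => G.tl (lab ((l : ℝ) / n))) (m := 0) n
    (fun l hl => by
      have := (hw (0 + l) (by omega)).ok hC (hjB _)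
      exact this)
  have e0 : G.tl (lab (((0 : ℕ) : ℝ) / n)) = G.tl d := by
    apply hlab2 _ (grid_mem hn0 (Nat.zero_le _)) d (by simp)
    rw [Nat.cast_zero, zero_div, hc0']
  have e1 : G.tl (lab (((0 + n : ℕ) : ℝ) / n)) = G.tl d' := by
    rw [Nat.zero_add]
    apply hlab2 _ (grid_mem hn0 le_rfl) d' (by simp)
    have : ((n : ℕ) : ℝ) ≠ 0 := by exact_mod_cast hn0.ne'
    rw [div_self this, hc1']
  have hfin' : Ok G (ball x (a / 2)) (G.tl d) (G.tl d') (cat w 0 n) := by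
    rw [← e0, ← e1]; exact hfin
  refine ⟨cat w 0 n, hfin'.1, fun e he => ?_⟩
  have := hfin'.2 e he
  rw [mem_ball, mem_ball, dist_comm, dist_comm _ x] at this
  exact this

/-- contraction of closed walks -/
lemma contr_part {C : NNReal} {R : ℝ} (hC1 : 1 ≤ C) (x : M) {φ : M → E} {ψ : E → M}
    (hch : Cht E C R x φ ψ) (r a : ℝ) (haR : a + ρ ≤ R) (har : C * (C * (a + ρ)) + ρ ≤ r)
    (har2 : a + ρ ≤ r)
    (hρ0 : 0 ≤ ρ) (hC : CellSys G Fc cell inC U ρ) (hU : ball x r ⊆ U) (hJ : Nonempty J)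
    (v : M) (z : List D) (hz : Walk G v v z) (hv : dist x v < a)
    (hza : ∀ e ∈ z, dist x (G.tl e) < a ∧ dist x (G.hd e) < a) :
    HH G Fc (ball x r) v v z [] := by
  classical
  by_cases hz0 : z = []
  · subst hz0; exact HH.refl _ _ _ _
  obtain ⟨ζ, hζ, hζ0, hζ1, hζd, hζc⟩ := exists_loop hC z v v hz
  have hζs : ∀ t, dist x (ζ t) < a + ρ := by
    intro t
    rcases hζd t with h1 | ⟨e, he, h1⟩
    · rw [h1]; linarith
    · have h2 := (hza e he).1
      have h3 := dist_triangle x (G.tl e) (ζ t)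
      rw [dist_comm (G.tl e) (ζ t)] at h3
      linarith
  obtain ⟨hh, hhd, hh0, hh1, hhe⟩ := seg hch hC1 (X := ℝ × ℝ) (fun p => ζ p.2) (fun _ => v)
    (hζ.comp continuous_snd) continuous_const (a + ρ) haR (fun p => hζs p.2)
    (fun _ => by linarith) (fun p => p.1) continuous_fst
  obtain ⟨h, hdef⟩ : ∃ h : ℝ × ℝ → M, h = fun p : ℝ × ℝ =>
      ψ (AffineMap.lineMap (φ (ζ p.2)) (φ v) (clp p.1)) := ⟨_, rfl⟩
  have hhc : Continuous h := by rw [hdef]; exact hh
  have hhd' : ∀ p, dist x (h p) < C * (C * (a + ρ)) := by rw [hdef]; exact hhd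
  have hh0' : ∀ p : ℝ × ℝ, p.1 = 0 → h p = ζ p.2 := by rw [hdef]; exact hh0
  have hh1' : ∀ p : ℝ × ℝ, p.1 = 1 → h p = v := by rw [hdef]; exact hh1
  have hhe' : ∀ p : ℝ × ℝ, ζ p.2 = v → h p = ζ p.2 := by rw [hdef]; exact hhe
  have hhU : ∀ p, h p ∈ U := fun p => hU (by
    rw [mem_ball, dist_comm]; have := hhd' p; linarith)
  -- labels
  obtain ⟨q, hq⟩ : ∃ q, q = z.length := ⟨_, rfl⟩
  rw [← hq] at hζ1
  have hq0 : 0 < q := by
    rw [hq]; exact List.length_pos_iff.2 hz0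
  obtain ⟨δ, hδ, lab, hlab1, hlab2⟩ := labels hC (Icc (0 : ℝ) 1 ×ˢ Icc (0 : ℝ) q)
    (isCompact_Icc.prod isCompact_Icc) h hhc (fun p _ => hhU p) (z ++ z.map G.inv) (by
      intro d hd
      apply hU
      rw [mem_ball, dist_comm]
      rw [List.mem_append, List.mem_map] at hd
      rcases hd with hd | ⟨e, he, rfl⟩
      · have := (hza d hd).1; linarith
      · rw [tl_inv]; have := (hza e he).2; linarith)
  obtain ⟨n', hn'⟩ := exists_nat_one_div_lt hδ
  obtain ⟨n, hn⟩ : ∃ n, n = n' + 1 := ⟨_, rfl⟩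
  have hn0 : 0 < n := by omega
  have hnR : (0 : ℝ) < n := by exact_mod_cast hn0
  have hnδ : 1 / (n : ℝ) < δ := by rw [hn]; push_cast; exact hn'
  -- grid points
  have hmem : ∀ k l, k ≤ n → l ≤ q * n → (((k : ℝ) / n, (l : ℝ) / n) : ℝ × ℝ) ∈
      Icc (0 : ℝ) 1 ×ˢ Icc (0 : ℝ) q := by
    intro k l hk hl
    refine ⟨grid_mem hn0 hk, ?_, ?_⟩
    · show (0 : ℝ) ≤ (l : ℝ) / n
      positivity
    · show (l : ℝ) / n ≤ q
      rw [div_le_iff₀ hnR]
      exact_mod_cast hl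
  have hjex : ∀ k l : ℕ, ∃ j, h ((k : ℝ) / n, (l : ℝ) / n) ∈ cell j :=
    fun k l => hC.cover _ (hhU _)
  choose j hj using hjex
  have hjB : ∀ k l, cell (j k l) ⊆ ball x r := by
    intro k l y hy
    rw [mem_ball, dist_comm]
    have e1 := hC.diam _ _ (hj k l) _ hy
    have e2 := hhd' ((k : ℝ) / n, (l : ℝ) / n)
    have e3 := dist_triangle x (h ((k : ℝ) / n, (l : ℝ) / n)) y
    linarith
  have hdist : ∀ k l k' l' : ℕ, k ≤ k' + 1 → k' ≤ k + 1 → l ≤ l' + 1 → l' ≤ l + 1 →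
      dist (((k' : ℝ) / n, (l' : ℝ) / n) : ℝ × ℝ) ((k : ℝ) / n, (l : ℝ) / n) < δ := by
    intro k l k' l' h1 h2 h3 h4
    rw [Prod.dist_eq]
    exact (max_le (grid_dist hn0 h2 h1) (grid_dist hn0 h4 h3)).trans_lt hnδ
  have hlabv : ∀ k l, k ≤ n → l ≤ q * n → h ((k : ℝ) / n, (l : ℝ) / n) = v →
      G.tl (lab ((k : ℝ) / n, (l : ℝ) / n)) = v := by
    intro k l hk hl hhv
    obtain ⟨d, z', hdz⟩ : ∃ d z', z = d :: z' := List.exists_cons_of_ne_nil hz0
    have e1 : G.tl d = v := by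
      rw [hdz] at hz
      exact hz.1
    have := hlab2 _ (hmem k l hk hl) d (by rw [hdz]; simp) (by rw [hhv, e1])
    rw [this, e1]
  obtain ⟨w, hw, hgrid⟩ := HH_grid hC (B := ball x r) n (q * n)
    (fun k l => lab ((k : ℝ) / n, (l : ℝ) / n)) j (fun k l _ _ => hjB k l)
    (fun k l k' l' hk hl _ _ h1 h2 h3 h4 =>
      hlab1 _ (hmem k l hk hl) _ (hdist k l k' l' h1 h2 h3 h4) _ (hj k' l')) v
    (fun k hk => hlabv k 0 hk (Nat.zero_le _) (by
      have e1 : ζ (((0 : ℕ) : ℝ) / n) = v := hζ0 _ (by simp)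
      rw [hhe' ((k : ℝ) / n, ((0 : ℕ) : ℝ) / n) e1]
      exact e1))
    (fun k hk => hlabv k (q * n) hk le_rfl (by
      have e1 : ζ (((q * n : ℕ) : ℝ) / n) = v := hζ1 _ (by
        push_cast
        rw [mul_div_cancel_right₀ _ hnR.ne'])
      rw [hhe' ((k : ℝ) / n, ((q * n : ℕ) : ℝ) / n) e1]
      exact e1))
    (fun l hl => hlabv n l le_rfl hl (hh1' _ (div_self hnR.ne')))
  -- the first row is the given walk
  obtain ⟨S, hS⟩ : ∃ S : ℕ → D, S = fun l : ℕ => lab (((0 : ℕ) : ℝ) / n, (l : ℝ) / n) := ⟨_, rfl⟩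
  have hw' : ∀ l < q * n, InW G inC (j 0 l) (G.tl (S l)) (G.tl (S (l + 1))) (w l) := by
    rw [hS]; exact hw
  have hSj : ∀ l ≤ q * n, ∀ l', l ≤ l' + 1 → l' ≤ l + 1 → G.tl (S l) ∈ cell (j 0 l') := by
    intro l hl l' h1 h2
    rw [hS]
    exact hlab1 _ (hmem 0 l (Nat.zero_le _) hl) _ (hdist 0 l 0 l' (by omega) (by omega) h1 h2) _
      (hj 0 l')
  have hS0 : G.tl (S 0) = v := by
    rw [hS]
    exact hlabv 0 0 (Nat.zero_le _) (Nat.zero_le _) (by
      have e1 : ζ (((0 : ℕ) : ℝ) / n) = v := hζ0 _ (by simp)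
      rw [hhe' (((0 : ℕ) : ℝ) / n, ((0 : ℕ) : ℝ) / n) e1]
      exact e1)
  have hh00 : ∀ l : ℕ, h (((0 : ℕ) : ℝ) / n, (l : ℝ) / n) = ζ ((l : ℝ) / n) := by
    intro l
    exact hh0' (((0 : ℕ) : ℝ) / n, (l : ℝ) / n) (by simp)
  have hpiece : ∀ (i : ℕ) (hi : i < z.length),
      G.tl (S (i * n)) = G.tl z[i] ∧ G.tl (S (i * n + n)) = G.hd z[i] ∧
      HH G Fc (ball x r) (G.tl (S (i * n))) (G.tl (S (i * n + n))) (cat w (i * n) n) [z[i]] ∧
      Ok G (ball x r) (G.tl (S (i * n))) (G.tl (S (i * n + n))) (cat w (i * n) n) ∧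
      Ok G (ball x r) (G.tl (S (i * n))) (G.tl (S (i * n + n))) [z[i]] := by
    intro i hi
    obtain ⟨a1, a2, j', hj', a3⟩ := hζc i hi
    have hle : i * n + n ≤ q * n := by
      rw [hq]
      calc i * n + n = (i + 1) * n := by ring
        _ ≤ z.length * n := Nat.mul_le_mul_right _ hi
    have hj'B : cell j' ⊆ ball x r := by
      intro y hy
      rw [mem_ball, dist_comm]
      have e1 := hC.diam _ _ (hC.tl_mem j' _ hj') _ hy
      have e2 := (hza _ (List.getElem_mem hi)).1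
      have e3 := dist_triangle x (G.tl z[i]) y
      linarith
    have hc1 : (((i * n : ℕ) : ℝ)) / n = i := by
      push_cast
      rw [mul_div_cancel_right₀ _ hnR.ne']
    have hc2 : (((i * n + n : ℕ) : ℝ)) / n = i + 1 := by
      push_cast
      rw [add_div, mul_div_cancel_right₀ _ hnR.ne', div_self hnR.ne']
    have b1 : G.tl (S (i * n)) = G.tl z[i] := by
      rw [hS]
      refine hlab2 _ (hmem 0 (i * n) (Nat.zero_le _) (by omega)) z[i] ?_ ?_
      · exact List.mem_append_left _ (List.getElem_mem hi)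
      · rw [hh00, hc1, a1]
    have b2 : G.tl (S (i * n + n)) = G.hd z[i] := by
      rw [hS, ← tl_inv (G := G)]
      refine hlab2 _ (hmem 0 (i * n + n) (Nat.zero_le _) hle) (G.inv z[i]) ?_ ?_
      · exact List.mem_append_right _ (List.mem_map_of_mem (List.getElem_mem hi))
      · rw [hh00, hc2, a2, tl_inv]
    have b3 : ∀ m ≤ n, G.tl (S (i * n + m)) ∈ cell j' := by
      intro m hm
      rw [hS]
      refine hlab1 _ (hmem 0 (i * n + m) (Nat.zero_le _) (by omega)) _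
        (by rw [dist_self]; exact hδ) j' ?_
      rw [hh00]
      have hmR : (m : ℝ) ≤ n := by exact_mod_cast hm
      apply a3
      · rw [le_div_iff₀ hnR]; push_cast; nlinarith [(Nat.cast_nonneg m : (0 : ℝ) ≤ m)]
      · rw [div_le_iff₀ hnR]; push_cast; nlinarith
    have b4 : ∀ m ≤ n, ∃ w', InW G inC j' (G.tl (S (i * n))) (G.tl (S (i * n + m))) w' ∧
        HH G Fc (ball x r) (G.tl (S (i * n))) (G.tl (S (i * n + m))) (cat w (i * n) m) w' := by
      intro m
      induction m with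
      | zero =>
        intro _
        exact ⟨[], ⟨rfl, by simp⟩, HH.refl _ _ _ _⟩
      | succ m ih =>
        intro hm
        obtain ⟨w1, hw1, hw1'⟩ := ih (by omega)
        obtain ⟨w2, hw2, hw2'⟩ := hC.conn j' (S (i * n + m)) (S (i * n + (m + 1)))
          (b3 m (by omega)) (b3 (m + 1) hm)
        have h2 : InW G inC j' (G.tl (S (i * n + m))) (G.tl (S (i * n + (m + 1)))) w2 :=
          ⟨hw2, hw2'⟩
        have h3 := hw' (i * n + m) (by omega)
        refine ⟨w1 ++ w2, hw1.append h2, ?_⟩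
        show HH G Fc (ball x r) _ _ (cat w (i * n) m ++ w (i * n + m)) (w1 ++ w2)
        refine HH.app (hw1.ok hC hj'B) (h3.ok hC (hjB 0 _)) hw1' ?_
        exact HH_tl hC (hjB 0 _) hj'B h3 h2 (hSj _ (by omega) _ (by omega) (by omega))
          (b3 m (by omega)) (hSj _ (by omega) _ (by omega) (by omega)) (b3 (m + 1) hm)
    obtain ⟨w1, hw1, hw1'⟩ := b4 n le_rfl
    have b5 : InW G inC j' (G.tl (S (i * n))) (G.tl (S (i * n + n))) [z[i]] := by
      rw [b1, b2]
      exact ⟨walk_single _, by simpa using hj'⟩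
    refine ⟨b1, b2, hw1'.trans (HH_same hC hj'B hw1 b5), ?_, b5.ok hC hj'B⟩
    have := cat_ok (G := G) (B := ball x r) (w := w) (v := fun l => G.tl (S l)) (m := i * n) n
      (fun l hl => (hw' (i * n + l) (by omega)).ok hC (hjB 0 _))
    exact this
  have hrow : ∀ i ≤ z.length, HH G Fc (ball x r) v (G.tl (S (i * n))) (cat w 0 (i * n))
      (z.take i) ∧ Ok G (ball x r) v (G.tl (S (i * n))) (z.take i) := by
    intro i
    induction i with
    | zero =>
      intro _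
      rw [Nat.zero_mul, hS0, List.take_zero]
      exact ⟨HH.refl _ _ _ _, Ok.nil _ _⟩
    | succ i ih =>
      intro hi
      obtain ⟨h1, h2⟩ := ih (by omega)
      obtain ⟨-, -, h3, h4, h5⟩ := hpiece i (by omega)
      have e1 : (i + 1) * n = i * n + n := by ring
      have e2 : z.take (i + 1) = z.take i ++ [z[i]] := by
        rw [List.take_append_getElem]
      rw [e1, e2, cat_add, Nat.zero_add]
      exact ⟨HH.app h2 h4 h1 h3, h2.append h5⟩
  have hfin := (hrow z.length le_rfl).1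
  rw [List.take_length, ← hq] at hfin
  have hSq : G.tl (S (q * n)) = v := by
    rw [hS]
    exact hlabv 0 (q * n) (Nat.zero_le _) le_rfl (by
      have e1 : ζ (((q * n : ℕ) : ℝ) / n) = v := hζ1 _ (by
        push_cast
        rw [mul_div_cancel_right₀ _ hnR.ne'])
      rw [hhe' (((0 : ℕ) : ℝ) / n, ((q * n : ℕ) : ℝ) / n) e1]
      exact e1)
  rw [hSq] at hfin
  exact hfin.symm.trans hgrid

end

end H124

theorem cells_fine {E : Type} [NormedAddCommGroup E] [NormedSpace ℝ E] {M : Type u}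
    [MetricSpace M] (hM : LocLip E M) (K : Set M) (hK : IsCompact K) (r : ℝ) (hr : 0 < r) :
    ∃ a > 0, ∃ b > 0, a ≤ r ∧ b ≤ a / 2 ∧ ∃ ρ₀ > 0,
      ∀ (D Λ J : Type u) [LinearOrder Λ] [Inhabited D] (G : Rib D M Λ) (Fc : Set (List D))
        (cell : J → Set M) (inC : J → D → Prop) (U : Set M) (ρ : ℝ),
        CellSys G Fc cell inC U ρ → ρ ≤ ρ₀ → (∀ x ∈ K, Metric.ball x r ⊆ U) →
        (∀ x ∈ K, ∀ d d', dist x (G.tl d) < b → dist x (G.tl d') < b →
          ∃ w, Walk G (G.tl d) (G.tl d') w ∧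
            ∀ e ∈ w, dist x (G.tl e) < a / 2 ∧ dist x (G.hd e) < a / 2) ∧
        (∀ x ∈ K, ∀ v z, Walk G v v z → dist x v < a →
          (∀ e ∈ z, dist x (G.tl e) < a ∧ dist x (G.hd e) < a) →
          Relation.ReflTransGen (fun z z' => (Del G Fc z z' ∨ Del G Fc z' z) ∧ Walk G v v z' ∧
            ∀ e ∈ z', dist x (G.tl e) < r ∧ dist x (G.hd e) < r) z []) := by
  obtain ⟨C, hC1, R, hR, hch⟩ := H124.chart_unif hM K hK
  have hC1' : (1 : ℝ) ≤ C := by exact_mod_cast hC1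
  have hC0 : (0 : ℝ) < C := lt_of_lt_of_le one_pos hC1'
  have hmin : 0 < min r R := lt_min hr hR
  obtain ⟨a, ha⟩ : ∃ a, a = min r R / (8 * (C * C)) := ⟨_, rfl⟩
  have ha0 : 0 < a := by rw [ha]; positivity
  have haCC : C * (C * a) = min r R / 8 := by
    rw [ha]; field_simp
  have hCC1 : (1 : ℝ) ≤ C * C := by nlinarith
  have hale : a ≤ min r R / 8 := by
    rw [← haCC]
    nlinarith
  have hminr : min r R ≤ r := min_le_left _ _
  have hminR : min r R ≤ R := min_le_right _ _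
  obtain ⟨b, hb⟩ : ∃ b, b = a / (8 * (C * C)) := ⟨_, rfl⟩
  have hb0 : 0 < b := by rw [hb]; positivity
  have hbCC : C * (C * b) = a / 8 := by
    rw [hb]; field_simp
  have hble : b ≤ a / 8 := by
    rw [← hbCC]
    nlinarith
  refine ⟨a, ha0, b, hb0, by linarith, by linarith, a / 8, by linarith, ?_⟩
  intro D Λ J _ _ G Fc cell inC U ρ hC hρ hU
  have hρ0 : ∀ x ∈ K, 0 ≤ ρ ∧ Nonempty J := by
    intro x hx
    obtain ⟨j, hj⟩ := hC.cover x (hU x hx (Metric.mem_ball_self hr))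
    have := hC.diam j x hj x hj
    rw [dist_self] at this
    exact ⟨this, ⟨j⟩⟩
  constructor
  · intro x hx d d' hd hd'
    obtain ⟨φ, ψ, hcht⟩ := hch x hx
    refine H124.conn_part hC1 x hcht a b (by linarith) (by linarith) (hρ0 x hx).1 hC ?_ d d' hd hd'
    exact (Metric.ball_subset_ball (by linarith)).trans (hU x hx)
  · intro x hx v z hz hv hza
    obtain ⟨φ, ψ, hcht⟩ := hch x hx
    have hρ1 := (hρ0 x hx).1
    have h1 : C * (C * (a + ρ)) ≤ min r R / 4 := by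
      have : (C : ℝ) * (C * (a + ρ)) ≤ C * (C * (2 * a)) := by
        apply mul_le_mul_of_nonneg_left _ hC0.le
        apply mul_le_mul_of_nonneg_left _ hC0.le
        linarith
      have h2 : (C : ℝ) * (C * (2 * a)) = 2 * (C * (C * a)) := by ring
      rw [h2, haCC] at this
      linarith
    have h2 := H124.contr_part hC1 x hcht r a (by linarith) (by linarith) (by linarith) hρ1 hC
      (hU x hx) (hρ0 x hx).2 v z hz hv hza
    refine Relation.ReflTransGen.mono ?_ _ _ h2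
    intro z1 z2 h3
    refine ⟨h3.1, h3.2.2.1, fun e he => ?_⟩
    have := h3.2.2.2 e he
    rw [Metric.mem_ball, Metric.mem_ball, dist_comm, dist_comm _ x] at this
    exact this

end Pool.Agent.TH317.CC
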