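import Pool.Agent.TH317.CC.Geo

/-! Job CC-G4 (project of helper317 on MP_86dbc7_gt): the discrete part. -/

set_option autoImplicit false
set_option linter.unusedSectionVars false

universe u

namespace Pool.Agent.TH317.CC

namespace H124

section
variable {M : Type u} [MetricSpace M] {D Λ : Type u} [LinearOrder Λ] {G : Rib D M Λ}
  {Fc : Set (List D)}

/-- walks with all vertices in `B` -/
def Ok (G : Rib D M Λ) (B : Set M) (v v' : M) (z : List D) : Prop :=
  Walk G v v' z ∧ ∀ e ∈ z, G.tl e ∈ B ∧ G.hd e ∈ B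

/-- elementary moves between walks with all vertices in `B` -/
def HR (G : Rib D M Λ) (Fc : Set (List D)) (B : Set M) (v v' : M) (z z' : List D) : Prop :=
  (Del G Fc z z' ∨ Del G Fc z' z) ∧ Ok G B v v' z ∧ Ok G B v v' z'

/-- equivalence of walks -/
def HH (G : Rib D M Λ) (Fc : Set (List D)) (B : Set M) (v v' : M) : List D → List D → Prop :=
  Relation.ReflTransGen (HR G Fc B v v')

lemma walk_append {v v' v'' : M} {p s : List D} (hp : Walk G v v' p) (hs : Walk G v' v'' s) :
    Walk G v v'' (p ++ s) := by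
  induction p generalizing v with
  | nil =>
    have : v = v' := hp
    subst this
    exact hs
  | cons d p ih =>
    obtain ⟨h1, h2⟩ := hp
    exact ⟨h1, ih h2⟩

lemma walk_nil (v : M) : Walk G v v [] := rfl

lemma walk_single (d : D) : Walk G (G.tl d) (G.hd d) [d] := ⟨rfl, rfl⟩

lemma tl_inv (d : D) : G.tl (G.inv d) = G.hd d := rfl

lemma hd_inv (d : D) : G.hd (G.inv d) = G.tl d := by
  unfold Rib.hd
  rw [G.inv_inv]

lemma rev_cons (d : D) (w : List D) : G.rev (d :: w) = G.rev w ++ [G.inv d] := by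
  simp [Rib.rev]

lemma walk_rev {v v' : M} {w : List D} (h : Walk G v v' w) : Walk G v' v (G.rev w) := by
  induction w generalizing v with
  | nil =>
    have : v = v' := h
    subst this
    exact rfl
  | cons d w ih =>
    obtain ⟨h1, h2⟩ := h
    rw [rev_cons]
    refine walk_append (ih h2) ?_
    have := walk_single (G := G) (G.inv d)
    rw [tl_inv, hd_inv, h1] at this
    exact this

lemma mem_rev {w : List D} {e : D} (h : e ∈ G.rev w) : G.inv e ∈ w := by
  unfold Rib.rev at h
  rw [List.mem_reverse, List.mem_map] at h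
  obtain ⟨a, ha, rfl⟩ := h
  rw [G.inv_inv]
  exact ha

lemma Ok.append {B : Set M} {v v' v'' : M} {p s : List D} (hp : Ok G B v v' p)
    (hs : Ok G B v' v'' s) : Ok G B v v'' (p ++ s) := by
  refine ⟨walk_append hp.1 hs.1, ?_⟩
  intro e he
  rw [List.mem_append] at he
  rcases he with he | he
  · exact hp.2 e he
  · exact hs.2 e he

lemma Ok.rev {B : Set M} {v v' : M} {w : List D} (h : Ok G B v v' w) : Ok G B v' v (G.rev w) := by
  refine ⟨walk_rev h.1, ?_⟩
  intro e he
  have := h.2 _ (mem_rev he)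
  rw [tl_inv, hd_inv] at this
  exact ⟨this.2, this.1⟩

lemma Ok.nil (B : Set M) (v : M) : Ok G B v v [] := ⟨rfl, by simp⟩

lemma del_ctx {z z' : List D} (p s : List D) (h : Del G Fc z z') :
    Del G Fc (p ++ z ++ s) (p ++ z' ++ s) := by
  cases h with
  | spur u a v =>
    have := Del.spur (G := G) (Fc := Fc) (p ++ u) a (v ++ s)
    simpa [List.append_assoc] using this
  | face u f v hf =>
    have := Del.face (G := G) (Fc := Fc) (p ++ u) f (v ++ s) hf
    simpa [List.append_assoc] using this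

lemma HH.refl (B : Set M) (v v' : M) (z : List D) : HH G Fc B v v' z z :=
  Relation.ReflTransGen.refl

lemma HH.trans {B : Set M} {v v' : M} {z z' z'' : List D} (h : HH G Fc B v v' z z')
    (h' : HH G Fc B v v' z' z'') : HH G Fc B v v' z z'' :=
  Relation.ReflTransGen.trans h h'

lemma HH.symm {B : Set M} {v v' : M} {z z' : List D} (h : HH G Fc B v v' z z') :
    HH G Fc B v v' z' z := by
  induction h with
  | refl => exact Relation.ReflTransGen.refl
  | tail _ h2 ih =>
    exact Relation.ReflTransGen.head ⟨h2.1.symm, h2.2.2, h2.2.1⟩ ih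

lemma HH.ctx {B : Set M} {v v' v0 v1 : M} {z z' p s : List D} (hp : Ok G B v0 v p)
    (hs : Ok G B v' v1 s) (h : HH G Fc B v v' z z') :
    HH G Fc B v0 v1 (p ++ z ++ s) (p ++ z' ++ s) := by
  unfold HH at *
  refine Relation.ReflTransGen.lift (fun z => p ++ z ++ s) (fun a b hab => ?_) _ _ h
  refine ⟨?_, (hp.append hab.2.1).append hs, (hp.append hab.2.2).append hs⟩
  rcases hab.1 with h1 | h1
  · exact Or.inl (del_ctx p s h1)
  · exact Or.inr (del_ctx p s h1)

lemma HH.app {B : Set M} {v v' v'' : M} {z z' y y' : List D} (hz' : Ok G B v v' z')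
    (hy : Ok G B v' v'' y) (h : HH G Fc B v v' z z') (h' : HH G Fc B v' v'' y y') :
    HH G Fc B v v'' (z ++ y) (z' ++ y') := by
  have h1 := HH.ctx (Ok.nil B v) hy h
  have h2 := HH.ctx hz' (Ok.nil B v'') h'
  simp only [List.nil_append, List.append_nil] at h1 h2
  exact h1.trans h2

lemma HH.of_ok {B : Set M} {v v' : M} {z z' : List D} (hz : Ok G B v v' z)
    (h : HH G Fc B v v' z z') : Ok G B v v' z' := by
  induction h with
  | refl => exact hz
  | tail _ h2 _ => exact h2.2.2

lemma HH_rev {B : Set M} {v v' : M} {w : List D} (h : Ok G B v v' w) :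
    HH G Fc B v' v' (G.rev w ++ w) [] := by
  induction w generalizing v with
  | nil => exact HH.refl _ _ _ _
  | cons d w ih =>
    obtain ⟨⟨h1, h2⟩, h3⟩ := h
    have hw : Ok G B (G.hd d) v' w := ⟨h2, fun e he => h3 e (List.mem_cons_of_mem _ he)⟩
    refine Relation.ReflTransGen.head ?_ (ih hw)
    have hd : Ok G B v v' (d :: w) := ⟨⟨h1, h2⟩, h3⟩
    refine ⟨Or.inl ?_, hd.rev.append hd, hw.rev.append hw⟩
    rw [rev_cons]
    have := Del.spur (G := G) (Fc := Fc) (G.rev w) (G.inv d) w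
    rw [G.inv_inv] at this
    simpa [List.append_assoc] using this

variable [Inhabited D] {J : Type u} {cell : J → Set M} {inC : J → D → Prop} {U : Set M} {ρ : ℝ}

/-- walks in a cell -/
def InW (G : Rib D M Λ) (inC : J → D → Prop) (j : J) (v v' : M) (w : List D) : Prop :=
  Walk G v v' w ∧ ∀ e ∈ w, inC j e

lemma InW.ok (hC : CellSys G Fc cell inC U ρ) {B : Set M} {j : J} (hj : cell j ⊆ B) {v v' : M}
    {w : List D} (hw : InW G inC j v v' w) : Ok G B v v' w := by
  refine ⟨hw.1, fun e he => ?_⟩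
  refine ⟨hj (hC.tl_mem j e (hw.2 e he)), ?_⟩
  have := hC.tl_mem j (G.inv e) (hC.inv_mem j e (hw.2 e he))
  exact hj this

lemma InW.append {j : J} {v v' v'' : M} {w w' : List D} (h : InW G inC j v v' w)
    (h' : InW G inC j v' v'' w') : InW G inC j v v'' (w ++ w') := by
  refine ⟨walk_append h.1 h'.1, fun e he => ?_⟩
  rw [List.mem_append] at he
  rcases he with he | he
  · exact h.2 e he
  · exact h'.2 e he

lemma InW.rev (hC : CellSys G Fc cell inC U ρ) {j : J} {v v' : M} {w : List D}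
    (h : InW G inC j v v' w) : InW G inC j v' v (G.rev w) := by
  refine ⟨walk_rev h.1, fun e he => ?_⟩
  have := hC.inv_mem j _ (h.2 _ (mem_rev he))
  rwa [G.inv_inv] at this

lemma HH_contr (hC : CellSys G Fc cell inC U ρ) {B : Set M} {j : J} (hj : cell j ⊆ B) {v : M}
    {w : List D} (hw : InW G inC j v v w) : HH G Fc B v v w [] := by
  have h := hC.contr j v w hw.1 hw.2
  have key : ∀ z, Relation.ReflTransGen (fun z z' => (Del G Fc z z' ∨ Del G Fc z' z) ∧
      Walk G v v z' ∧ ∀ e ∈ z', inC j e) w z → HH G Fc B v v w z ∧ InW G inC j v v z := by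
    intro z hz
    induction hz with
    | refl => exact ⟨HH.refl _ _ _ _, hw⟩
    | tail _ h2 ih =>
      have h3 : InW G inC j v v _ := ⟨h2.2.1, h2.2.2⟩
      exact ⟨Relation.ReflTransGen.tail ih.1 ⟨h2.1, ih.2.ok hC hj, h3.ok hC hj⟩, h3⟩
  exact (key [] h).1

lemma HH_same (hC : CellSys G Fc cell inC U ρ) {B : Set M} {j : J} (hj : cell j ⊆ B) {v v' : M}
    {w w' : List D} (hw : InW G inC j v v' w) (hw' : InW G inC j v v' w') :
    HH G Fc B v v' w w' := by
  have e1 : HH G Fc B v v' (w ++ (G.rev w' ++ w')) w := by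
    have := HH.ctx (hw.ok hC hj) (Ok.nil B v') (HH_rev (Fc := Fc) (hw'.ok hC hj))
    simpa using this
  have e2 : HH G Fc B v v' ((w ++ G.rev w') ++ w') w' := by
    have := HH.ctx (Ok.nil B v) (hw'.ok hC hj) (HH_contr hC hj (hw.append (hw'.rev hC)))
    simpa using this
  rw [List.append_assoc] at e2
  exact e1.symm.trans e2

lemma HH_tl (hC : CellSys G Fc cell inC U ρ) {B : Set M} {j j' : J} (hj : cell j ⊆ B)
    (hj' : cell j' ⊆ B) {d d' : D} {w w' : List D}
    (hw : InW G inC j (G.tl d) (G.tl d') w) (hw' : InW G inC j' (G.tl d) (G.tl d') w')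
    (h1 : G.tl d ∈ cell j) (h2 : G.tl d ∈ cell j') (h3 : G.tl d' ∈ cell j)
    (h4 : G.tl d' ∈ cell j') : HH G Fc B (G.tl d) (G.tl d') w w' := by
  by_cases hjj : j = j'
  · subst hjj
    exact HH_same hC hj hw hw'
  · by_cases hv : G.tl d = G.tl d'
    · rw [← hv] at hw hw' ⊢
      exact (HH_contr hC hj hw).trans (HH_contr hC hj' hw').symm
    · obtain ⟨e, he1, he2, he3, he4⟩ := hC.meet j j' hjj d d' hv h1 h2 h3 h4
      have hwe : Walk G (G.tl d) (G.tl d') [e] := by
        rw [← he1, ← he2]; exact walk_single e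
      have a1 : InW G inC j (G.tl d) (G.tl d') [e] := ⟨hwe, by simpa using he3⟩
      have a2 : InW G inC j' (G.tl d) (G.tl d') [e] := ⟨hwe, by simpa using he4⟩
      exact (HH_same hC hj hw a1).trans (HH_same hC hj' a2 hw')

/-- concatenation of the words `w m, ..., w (m + n - 1)` -/
def cat (w : ℕ → List D) (m : ℕ) : ℕ → List D
  | 0 => []
  | n + 1 => cat w m n ++ w (m + n)

lemma cat_add (w : ℕ → List D) (m n n' : ℕ) : cat w m (n + n') = cat w m n ++ cat w (m + n) n' := by
  induction n' with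
  | zero => simp [cat]
  | succ n' ih =>
    rw [← Nat.add_assoc]
    show cat w m (n + n') ++ w (m + (n + n')) = _
    rw [ih]
    show _ = cat w m n ++ (cat w (m + n) n' ++ w (m + n + n'))
    rw [List.append_assoc, Nat.add_assoc]

lemma cat_ok {B : Set M} {w : ℕ → List D} {v : ℕ → M} {m : ℕ} (n : ℕ)
    (h : ∀ k < n, Ok G B (v (m + k)) (v (m + k + 1)) (w (m + k))) :
    Ok G B (v m) (v (m + n)) (cat w m n) := by
  induction n with
  | zero => exact Ok.nil _ _
  | succ n ih =>
    exact (ih fun k hk => h k (by omega)).append (h n (by omega))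

/-- the square relation -/
lemma HH_square (hC : CellSys G Fc cell inC U ρ) {B : Set M} {j j1 j2 : J} (hj : cell j ⊆ B)
    (hj1 : cell j1 ⊆ B) (hj2 : cell j2 ⊆ B) {d00 d01 d10 d11 : D}
    (c1 : G.tl d00 ∈ cell j) (c2 : G.tl d01 ∈ cell j) (c3 : G.tl d10 ∈ cell j)
    (c4 : G.tl d11 ∈ cell j) (c5 : G.tl d01 ∈ cell j1) (c6 : G.tl d11 ∈ cell j1)
    (c7 : G.tl d10 ∈ cell j2) (c8 : G.tl d11 ∈ cell j2) {w w' u u' : List D}
    (hw : InW G inC j (G.tl d00) (G.tl d01) w) (hu' : InW G inC j1 (G.tl d01) (G.tl d11) u')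
    (hu : InW G inC j (G.tl d00) (G.tl d10) u) (hw' : InW G inC j2 (G.tl d10) (G.tl d11) w') :
    HH G Fc B (G.tl d00) (G.tl d11) (w ++ u') (u ++ w') := by
  obtain ⟨x, hx1, hx2⟩ := hC.conn j d01 d11 c2 c4
  obtain ⟨y, hy1, hy2⟩ := hC.conn j d10 d11 c3 c4
  have hx : InW G inC j (G.tl d01) (G.tl d11) x := ⟨hx1, hx2⟩
  have hy : InW G inC j (G.tl d10) (G.tl d11) y := ⟨hy1, hy2⟩
  have e1 : HH G Fc B (G.tl d00) (G.tl d11) (w ++ u') (w ++ x) :=
    HH.app (hw.ok hC hj) (hu'.ok hC hj1) (HH.refl _ _ _ _) (HH_tl hC hj1 hj hu' hx c5 c2 c6 c4)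
  have e2 : HH G Fc B (G.tl d00) (G.tl d11) (u ++ w') (u ++ y) :=
    HH.app (hu.ok hC hj) (hw'.ok hC hj2) (HH.refl _ _ _ _) (HH_tl hC hj2 hj hw' hy c7 c3 c8 c4)
  exact (e1.trans (HH_same hC hj (hw.append hx) (hu.append hy))).trans e2.symm

/-- the discrete homotopy -/
lemma HH_grid (hC : CellSys G Fc cell inC U ρ) {B : Set M} (N Q : ℕ) (d : ℕ → ℕ → D)
    (j : ℕ → ℕ → J) (hj : ∀ k l, k ≤ N → l ≤ Q → cell (j k l) ⊆ B)
    (hd : ∀ k l k' l', k ≤ N → l ≤ Q → k' ≤ N → l' ≤ Q → k ≤ k' + 1 → k' ≤ k + 1 → l ≤ l' + 1 →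
      l' ≤ l + 1 → G.tl (d k l) ∈ cell (j k' l'))
    (v : M) (hv0 : ∀ k ≤ N, G.tl (d k 0) = v) (hvQ : ∀ k ≤ N, G.tl (d k Q) = v)
    (hvN : ∀ l ≤ Q, G.tl (d N l) = v) :
    ∃ w : ℕ → List D, (∀ l < Q, InW G inC (j 0 l) (G.tl (d 0 l)) (G.tl (d 0 (l + 1))) (w l)) ∧
      HH G Fc B v v (cat w 0 Q) [] := by
  -- horizontal and vertical walks
  have hw : ∀ k l, ∃ w, k ≤ N → l < Q →
      InW G inC (j k l) (G.tl (d k l)) (G.tl (d k (l + 1))) w := by
    intro k l
    by_cases h : k ≤ N ∧ l < Q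
    · obtain ⟨w, hw1, hw2⟩ := hC.conn (j k l) (d k l) (d k (l + 1))
        (hd k l k l h.1 (by omega) h.1 (by omega) (by omega) (by omega) (by omega) (by omega))
        (hd k (l + 1) k l h.1 (by omega) h.1 (by omega) (by omega) (by omega) (by omega)
          (by omega))
      exact ⟨w, fun _ _ => ⟨hw1, hw2⟩⟩
    · exact ⟨[], fun h1 h2 => absurd ⟨h1, h2⟩ h⟩
  have hu : ∀ k l, ∃ w, k < N → l ≤ Q →
      InW G inC (j k l) (G.tl (d k l)) (G.tl (d (k + 1) l)) w := by
    intro k l
    by_cases h : k < N ∧ l ≤ Q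
    · obtain ⟨w, hw1, hw2⟩ := hC.conn (j k l) (d k l) (d (k + 1) l)
        (hd k l k l (by omega) (by omega) (by omega) (by omega) (by omega) (by omega) (by omega)
          (by omega))
        (hd (k + 1) l k l (by omega) (by omega) (by omega) (by omega) (by omega) (by omega)
          (by omega) (by omega))
      exact ⟨w, fun _ _ => ⟨hw1, hw2⟩⟩
    · exact ⟨[], fun h1 h2 => absurd ⟨h1, h2⟩ h⟩
  choose w hw using hw
  choose u hu using hu
  refine ⟨w 0, fun l hl => hw 0 l (Nat.zero_le _) hl, ?_⟩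
  -- partial rows
  have hrowok : ∀ k ≤ N, ∀ l ≤ Q, Ok G B (G.tl (d k 0)) (G.tl (d k l)) (cat (w k) 0 l) := by
    intro k hk l hl
    have := cat_ok (G := G) (B := B) (w := w k) (v := fun l => G.tl (d k l)) (m := 0) l
      (fun l' hl' => by
        have h1 := (hw k (0 + l') hk (by omega)).ok hC (hj k (0 + l') hk (by omega))
        exact h1)
    simpa using this
  have huok : ∀ k < N, ∀ l ≤ Q, Ok G B (G.tl (d k l)) (G.tl (d (k + 1) l)) (u k l) := by
    intro k hk l hl
    exact (hu k l hk hl).ok hC (hj k l (by omega) hl)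
  have hstep : ∀ k < N, ∀ l ≤ Q, HH G Fc B (G.tl (d k 0)) (G.tl (d (k + 1) l))
      (cat (w k) 0 l ++ u k l) (u k 0 ++ cat (w (k + 1)) 0 l) := by
    intro k hk l
    induction l with
    | zero =>
      intro _
      simp only [cat, List.nil_append, List.append_nil]
      exact HH.refl _ _ _ _
    | succ l ih =>
      intro hl
      have ih' := ih (by omega)
      have hsq : HH G Fc B (G.tl (d k l)) (G.tl (d (k + 1) (l + 1)))
          (w k l ++ u k (l + 1)) (u k l ++ w (k + 1) l) := by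
        refine HH_square hC (j := j k l) (j1 := j k (l + 1)) (j2 := j (k + 1) l)
          (hj _ _ (by omega) (by omega)) (hj _ _ (by omega) (by omega))
          (hj _ _ (by omega) (by omega)) (d00 := d k l) (d01 := d k (l + 1))
          (d10 := d (k + 1) l) (d11 := d (k + 1) (l + 1)) ?_ ?_ ?_ ?_ ?_ ?_ ?_ ?_
          (hw k l (by omega) (by omega)) (hu k (l + 1) hk (by omega)) (hu k l hk (by omega))
          (hw (k + 1) l (by omega) (by omega))
        all_goals
          refine hd _ _ _ _ ?_ ?_ ?_ ?_ ?_ ?_ ?_ ?_ <;> omega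
      have e1 : cat (w k) 0 (l + 1) ++ u k (l + 1) = cat (w k) 0 l ++ (w k l ++ u k (l + 1)) := by
        show (cat (w k) 0 l ++ w k (0 + l)) ++ u k (l + 1) = _
        rw [Nat.zero_add, List.append_assoc]
      have e2 : u k 0 ++ cat (w (k + 1)) 0 (l + 1) = (u k 0 ++ cat (w (k + 1)) 0 l) ++
          w (k + 1) l := by
        show u k 0 ++ (cat (w (k + 1)) 0 l ++ w (k + 1) (0 + l)) = _
        rw [Nat.zero_add, List.append_assoc]
      rw [e1, e2]
      have a1 : HH G Fc B (G.tl (d k 0)) (G.tl (d (k + 1) (l + 1)))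
          (cat (w k) 0 l ++ (w k l ++ u k (l + 1))) (cat (w k) 0 l ++ (u k l ++ w (k + 1) l)) := by
        have := HH.ctx (hrowok k (by omega) l (by omega)) (Ok.nil B _) hsq
        simpa using this
      have hwok : Ok G B (G.tl (d (k + 1) l)) (G.tl (d (k + 1) (l + 1))) (w (k + 1) l) :=
        (hw (k + 1) l (by omega) (by omega)).ok hC (hj _ _ (by omega) (by omega))
      have a2 : HH G Fc B (G.tl (d k 0)) (G.tl (d (k + 1) (l + 1)))
          ((cat (w k) 0 l ++ u k l) ++ w (k + 1) l)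
          ((u k 0 ++ cat (w (k + 1)) 0 l) ++ w (k + 1) l) := by
        have := HH.ctx (Ok.nil B _) hwok ih'
        simpa only [List.nil_append] using this
      rw [← List.append_assoc (cat (w k) 0 l) (u k l) (w (k + 1) l)] at a1
      exact a1.trans a2
  have hrow : ∀ k < N, HH G Fc B v v (cat (w k) 0 Q) (cat (w (k + 1)) 0 Q) := by
    intro k hk
    have h1 := hstep k hk Q le_rfl
    rw [hv0 k (by omega), hvQ (k + 1) (by omega)] at h1
    have r0 : Ok G B v v (cat (w k) 0 Q) := by
      have := hrowok k (by omega) Q le_rfl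
      rwa [hv0 k (by omega), hvQ k (by omega)] at this
    have r1 : Ok G B v v (cat (w (k + 1)) 0 Q) := by
      have := hrowok (k + 1) (by omega) Q le_rfl
      rwa [hv0 (k + 1) (by omega), hvQ (k + 1) (by omega)] at this
    have u0 : HH G Fc B v v (u k 0) [] := by
      have := hu k 0 hk (Nat.zero_le _)
      rw [hv0 k (by omega), hv0 (k + 1) (by omega)] at this
      exact HH_contr hC (hj k 0 (by omega) (Nat.zero_le _)) this
    have uQ : HH G Fc B v v (u k Q) [] := by
      have := hu k Q hk le_rfl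
      rw [hvQ k (by omega), hvQ (k + 1) (by omega)] at this
      exact HH_contr hC (hj k Q (by omega) le_rfl) this
    have e1 : HH G Fc B v v (cat (w k) 0 Q ++ u k Q) (cat (w k) 0 Q) := by
      have := HH.ctx r0 (Ok.nil B v) uQ
      simpa using this
    have e2 : HH G Fc B v v (u k 0 ++ cat (w (k + 1)) 0 Q) (cat (w (k + 1)) 0 Q) := by
      have := HH.ctx (Ok.nil B v) r1 u0
      simpa using this
    exact (e1.symm.trans h1).trans e2
  have hall : ∀ k ≤ N, HH G Fc B v v (cat (w 0) 0 Q) (cat (w k) 0 Q) := by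
    intro k
    induction k with
    | zero => intro _; exact HH.refl _ _ _ _
    | succ k ih => intro hk; exact (ih (by omega)).trans (hrow k (by omega))
  have hlast : ∀ l ≤ Q, HH G Fc B v v (cat (w N) 0 l) [] := by
    intro l
    induction l with
    | zero => intro _; exact HH.refl _ _ _ _
    | succ l ih =>
      intro hl
      have h1 := ih (by omega)
      have h2 : InW G inC (j N l) v v (w N l) := by
        have := hw N l le_rfl (by omega)
        rwa [hvN l (by omega), hvN (l + 1) (by omega)] at this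
      have h3 := HH_contr hC (hj N l le_rfl (by omega)) h2
      have := HH.app (Ok.nil B v) (h2.ok hC (hj N l le_rfl (by omega))) h1 h3
      show HH G Fc B v v (cat (w N) 0 l ++ w N (0 + l)) []
      rw [Nat.zero_add]
      simpa using this
  exact (hall N le_rfl).trans (hlast Q le_rfl)

end

end H124

end Pool.Agent.TH317.CC
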