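import Pool.Agent.TH124.CC.Disc

/-! Job CC-G4 (project of helper317 on MP_86dbc7_gt): charts, labels, paths. -/

set_option autoImplicit false
set_option linter.unusedSectionVars false

universe u

namespace Pool.Agent.TH317.CC

namespace H124

open Metric Set

/-- clamp -/
noncomputable def clp (t : ℝ) : ℝ := max 0 (min t 1)

lemma clp_cont : Continuous clp := by unfold clp; fun_prop

lemma clp_mem (t : ℝ) : clp t ∈ Icc (0 : ℝ) 1 := by
  unfold clp
  exact ⟨le_max_left _ _, max_le zero_le_one (min_le_right _ _)⟩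

lemma clp_eq {t : ℝ} (h : t ∈ Icc (0 : ℝ) 1) : clp t = t := by
  unfold clp
  rw [min_eq_left h.2, max_eq_right h.1]

section
variable {E : Type} [NormedAddCommGroup E] [NormedSpace ℝ E] {M : Type u} [MetricSpace M]

/-- a chart at `x` with constants `C`, `R` -/
def Cht (E : Type) [NormedAddCommGroup E] {M : Type u} [MetricSpace M] (C : NNReal) (R : ℝ)
    (x : M) (φ : M → E) (ψ : E → M) : Prop :=
  LipschitzOnWith C φ (ball x R) ∧ (∀ y ∈ ball x R, ψ (φ y) = y) ∧
    LipschitzOnWith C ψ (ball (φ x) (C * R))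

lemma Cht.mono {C C' : NNReal} {R R' : ℝ} {x : M} {φ : M → E} {ψ : E → M} (h : Cht E C R x φ ψ)
    (hC : C ≤ C') (hR : R' ≤ R) (hCR : C' * R' ≤ C * R) : Cht E C' R' x φ ψ :=
  ⟨(h.1.mono (ball_subset_ball hR)).weaken hC, fun y hy => h.2.1 y (ball_subset_ball hR hy),
    (h.2.2.mono (ball_subset_ball hCR)).weaken hC⟩

lemma chart_unif (hM : LocLip E M) (K : Set M) (hK : IsCompact K) :
    ∃ C : NNReal, 1 ≤ C ∧ ∃ R > 0, ∀ x ∈ K, ∃ φ ψ, Cht E C R x φ ψ := by
  refine hK.induction_on (p := fun s => ∃ C : NNReal, 1 ≤ C ∧ ∃ R > 0, ∀ x ∈ s, ∃ φ ψ,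
    Cht E C R x φ ψ) ?_ ?_ ?_ ?_
  · exact ⟨1, le_rfl, 1, one_pos, fun x hx => absurd hx (Set.notMem_empty x)⟩
  · rintro s t hst ⟨C, hC, R, hR, h⟩
    exact ⟨C, hC, R, hR, fun x hx => h x (hst hx)⟩
  · rintro s t ⟨C1, hC1, R1, hR1, h1⟩ ⟨C2, hC2, R2, hR2, h2⟩
    have hC : (0 : ℝ) < ((max C1 C2 : NNReal) : ℝ) := by
      have : (1 : NNReal) ≤ max C1 C2 := le_trans hC1 (le_max_left _ _)
      exact lt_of_lt_of_le one_pos (by exact_mod_cast this)
    have hCge : (1 : ℝ) ≤ ((max C1 C2 : NNReal) : ℝ) := by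
      have : (1 : NNReal) ≤ max C1 C2 := le_trans hC1 (le_max_left _ _)
      exact_mod_cast this
    have hRle : min R1 R2 / ((max C1 C2 : NNReal) : ℝ) ≤ min R1 R2 :=
      div_le_self (le_min hR1.le hR2.le) hCge
    have hmul : ((max C1 C2 : NNReal) : ℝ) * (min R1 R2 / ((max C1 C2 : NNReal) : ℝ)) =
        min R1 R2 := mul_div_cancel₀ _ hC.ne'
    refine ⟨max C1 C2, le_trans hC1 (le_max_left _ _), min R1 R2 / ((max C1 C2 : NNReal) : ℝ),
      div_pos (lt_min hR1 hR2) hC, ?_⟩
    rintro x (hx | hx)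
    · obtain ⟨φ, ψ, h⟩ := h1 x hx
      refine ⟨φ, ψ, h.mono (le_max_left _ _) (hRle.trans (min_le_left _ _)) ?_⟩
      rw [hmul]
      have : (1 : ℝ) ≤ (C1 : ℝ) := by exact_mod_cast hC1
      exact (min_le_left _ _).trans (le_mul_of_one_le_left hR1.le this)
    · obtain ⟨φ, ψ, h⟩ := h2 x hx
      refine ⟨φ, ψ, h.mono (le_max_right _ _) (hRle.trans (min_le_right _ _)) ?_⟩
      rw [hmul]
      have : (1 : ℝ) ≤ (C2 : ℝ) := by exact_mod_cast hC2
      exact (min_le_right _ _).trans (le_mul_of_one_le_left hR2.le this)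
  · intro x _
    obtain ⟨C0, R0, φ, ψ, hC0, hR0, h1, h2, h3⟩ := hM x
    refine ⟨ball x (R0 / 2), mem_nhdsWithin_of_mem_nhds (ball_mem_nhds x (half_pos hR0)),
      max C0 1, le_max_right _ _, C0 * R0 / (2 * (max C0 1 : NNReal)), ?_, ?_⟩
    · have : (0 : ℝ) < ((max C0 1 : NNReal) : ℝ) := by
        have : (1 : NNReal) ≤ max C0 1 := le_max_right _ _
        exact lt_of_lt_of_le one_pos (by exact_mod_cast this)
      have hC0' : (0 : ℝ) < C0 := by exact_mod_cast hC0
      positivity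
    · intro y hy
      have hC0' : (0 : ℝ) < C0 := by exact_mod_cast hC0
      have hC : (0 : ℝ) < ((max C0 1 : NNReal) : ℝ) := by
        have : (1 : NNReal) ≤ max C0 1 := le_max_right _ _
        exact lt_of_lt_of_le one_pos (by exact_mod_cast this)
      have hCC : (C0 : ℝ) ≤ ((max C0 1 : NNReal) : ℝ) := by exact_mod_cast le_max_left C0 1
      have hRle : C0 * R0 / (2 * ((max C0 1 : NNReal) : ℝ)) ≤ R0 / 2 := by
        rw [div_le_div_iff₀ (by positivity) (by norm_num)]
        nlinarith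
      have hmul : ((max C0 1 : NNReal) : ℝ) * (C0 * R0 / (2 * ((max C0 1 : NNReal) : ℝ))) =
          C0 * R0 / 2 := by
        field_simp
      have hball : ball y (C0 * R0 / (2 * ((max C0 1 : NNReal) : ℝ))) ⊆ ball x R0 := by
        intro w hw
        rw [mem_ball] at hw hy ⊢
        have := dist_triangle w y x
        linarith
      have hyR : y ∈ ball x R0 := ball_subset_ball (by linarith) hy
      refine ⟨φ, ψ, (h1.mono hball).weaken (le_max_left _ _), fun w hw => h2 w (hball hw), ?_⟩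
      refine (h3.mono ?_).weaken (le_max_left _ _)
      intro e he
      rw [hmul, mem_ball] at he
      rw [mem_ball]
      have e1 := h1.dist_le_mul y hyR x (mem_ball_self hR0)
      have e2 := dist_triangle e (φ y) (φ x)
      rw [mem_ball] at hy
      have e3 : (C0 : ℝ) * dist y x < C0 * (R0 / 2) := mul_lt_mul_of_pos_left hy hC0'
      linarith

/-- the segment homotopy in a chart -/
lemma seg {C : NNReal} {R : ℝ} {x : M} {φ : M → E} {ψ : E → M} (h : Cht E C R x φ ψ)
    (hC : 1 ≤ C) {X : Type*} [TopologicalSpace X] (f g : X → M) (hf : Continuous f)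
    (hg : Continuous g) (s : ℝ) (hsR : s ≤ R) (hfs : ∀ p, dist x (f p) < s)
    (hgs : ∀ p, dist x (g p) < s) (σ : X → ℝ) (hσ : Continuous σ) :
    Continuous (fun p => ψ (AffineMap.lineMap (φ (f p)) (φ (g p)) (clp (σ p)))) ∧
      (∀ p, dist x (ψ (AffineMap.lineMap (φ (f p)) (φ (g p)) (clp (σ p)))) < C * (C * s)) ∧
      (∀ p, σ p = 0 → ψ (AffineMap.lineMap (φ (f p)) (φ (g p)) (clp (σ p))) = f p) ∧
      (∀ p, σ p = 1 → ψ (AffineMap.lineMap (φ (f p)) (φ (g p)) (clp (σ p))) = g p) ∧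
      (∀ p, f p = g p → ψ (AffineMap.lineMap (φ (f p)) (φ (g p)) (clp (σ p))) = f p) := by
  have hCpos : (0 : ℝ) < C := lt_of_lt_of_le one_pos (by exact_mod_cast hC)
  have hfR : ∀ p, f p ∈ ball x R := fun p => by
    rw [mem_ball, dist_comm]; exact (hfs p).trans_le hsR
  have hgR : ∀ p, g p ∈ ball x R := fun p => by
    rw [mem_ball, dist_comm]; exact (hgs p).trans_le hsR
  have hxR : ∀ p : X, x ∈ ball x R := fun p => by
    rw [mem_ball, dist_self]
    exact lt_of_le_of_lt dist_nonneg ((hfs p).trans_le hsR)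
  have hφf : Continuous (fun p => φ (f p)) := h.1.continuousOn.comp_continuous hf hfR
  have hφg : Continuous (fun p => φ (g p)) := h.1.continuousOn.comp_continuous hg hgR
  have hline : Continuous (fun p => AffineMap.lineMap (φ (f p)) (φ (g p)) (clp (σ p)) : X → E) := by
    have : (fun p => AffineMap.lineMap (φ (f p)) (φ (g p)) (clp (σ p)) : X → E) =
        fun p => (clp (σ p)) • (φ (g p) - φ (f p)) + φ (f p) := by
      funext p
      rw [AffineMap.lineMap_apply]
      rfl
    rw [this]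
    exact ((clp_cont.comp hσ).smul (hφg.sub hφf)).add hφf
  have hmem : ∀ p, AffineMap.lineMap (φ (f p)) (φ (g p)) (clp (σ p)) ∈ ball (φ x) (C * s) := by
    intro p
    have e1 : φ (f p) ∈ ball (φ x) (C * s) := by
      rw [mem_ball]
      refine (h.1.dist_le_mul _ (hfR p) _ (hxR p)).trans_lt ?_
      rw [dist_comm]
      exact mul_lt_mul_of_pos_left (hfs p) hCpos
    have e2 : φ (g p) ∈ ball (φ x) (C * s) := by
      rw [mem_ball]
      refine (h.1.dist_le_mul _ (hgR p) _ (hxR p)).trans_lt ?_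
      rw [dist_comm]
      exact mul_lt_mul_of_pos_left (hgs p) hCpos
    exact (convex_ball (φ x) (C * s)).lineMap_mem e1 e2 (clp_mem _)
  have hsub : ball (φ x) (C * s) ⊆ ball (φ x) (C * R) :=
    ball_subset_ball (mul_le_mul_of_nonneg_left hsR hCpos.le)
  refine ⟨h.2.2.continuousOn.comp_continuous hline fun p => hsub (hmem p), ?_, ?_, ?_, ?_⟩
  · intro p
    have e1 := h.2.2.dist_le_mul _ (hsub (hmem p)) (φ x) (by
      rw [mem_ball, dist_self]
      have : 0 < R := lt_of_le_of_lt dist_nonneg ((hfs p).trans_le hsR)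
      positivity)
    rw [h.2.1 x (hxR p)] at e1
    rw [dist_comm]
    refine e1.trans_lt (mul_lt_mul_of_pos_left ?_ hCpos)
    have := hmem p
    rwa [mem_ball] at this
  · intro p hp
    rw [hp, clp_eq ⟨le_rfl, zero_le_one⟩, AffineMap.lineMap_apply_zero, h.2.1 _ (hfR p)]
  · intro p hp
    rw [hp, clp_eq ⟨zero_le_one, le_rfl⟩, AffineMap.lineMap_apply_one, h.2.1 _ (hgR p)]
  · intro p hp
    rw [hp, AffineMap.lineMap_same, AffineMap.const_apply, h.2.1 _ (hgR p)]

end

section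
variable {M : Type u} [MetricSpace M] {D Λ : Type u} [LinearOrder Λ] [Inhabited D]
  {G : Rib D M Λ} {Fc : Set (List D)} {J : Type u} {cell : J → Set M} {inC : J → D → Prop}
  {U : Set M} {ρ : ℝ}

lemma exists_delta {ι : Type*} (V : List ι) (P : ι → ℝ → Prop)
    (hmono : ∀ d δ δ', δ' ≤ δ → P d δ → P d δ') (h : ∀ d ∈ V, ∃ δ > 0, P d δ) :
    ∃ δ > 0, ∀ d ∈ V, P d δ := by
  induction V with
  | nil => exact ⟨1, one_pos, by simp⟩
  | cons a V ih =>
    obtain ⟨δ1, h1, h1'⟩ := ih fun d hd => h d (List.mem_cons_of_mem _ hd)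
    obtain ⟨δ2, h2, h2'⟩ := h a List.mem_cons_self
    refine ⟨min δ1 δ2, lt_min h1 h2, fun d hd => ?_⟩
    rw [List.mem_cons] at hd
    rcases hd with rfl | hd
    · exact hmono _ _ _ (min_le_right _ _) h2'
    · exact hmono _ _ _ (min_le_left _ _) (h1' d hd)

/-- labels -/
lemma labels (hC : CellSys G Fc cell inC U ρ) {X : Type} [MetricSpace X] (s : Set X)
    (hs : IsCompact s) (h : X → M) (hh : Continuous h) (hU : ∀ p ∈ s, h p ∈ U) (V : List D)
    (hV : ∀ d ∈ V, G.tl d ∈ U) :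
    ∃ δ > 0, ∃ lab : X → D,
      (∀ p ∈ s, ∀ p', dist p' p < δ → ∀ j, h p' ∈ cell j → G.tl (lab p) ∈ cell j) ∧
      ∀ p ∈ s, ∀ d ∈ V, h p = G.tl d → G.tl (lab p) = G.tl d := by
  classical
  -- general points
  have hst : ∀ y : U, ∃ d : D, ∃ O ∈ nhds (y : M), ∀ j, (cell j ∩ O).Nonempty →
      G.tl d ∈ cell j := fun y => hC.star y y.2
  choose dd O hO hOj using hst
  obtain ⟨δ1, hδ1, hleb⟩ := lebesgue_number_lemma_of_metric (s := s)
    (c := fun y : U => h ⁻¹' (interior (O y))) hs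
    (fun y => isOpen_interior.preimage hh) (by
      intro p hp
      rw [Set.mem_iUnion]
      exact ⟨⟨h p, hU p hp⟩, mem_interior_iff_mem_nhds.2 (hO ⟨h p, hU p hp⟩)⟩)
  -- special points
  obtain ⟨δ2, hδ2, hV2⟩ := exists_delta V (fun d δ => ∀ p ∈ s, h p = G.tl d →
    ∀ p', dist p' p < δ → ∀ j, h p' ∈ cell j → G.tl d ∈ cell j)
    (fun d δ δ' hle hP p hp hpd p' hp' j hj => hP p hp hpd p' (hp'.trans_le hle) j hj) (by
      intro d hd
      obtain ⟨O', hO', hOj'⟩ := hC.vstar d (hV d hd)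
      have hc : IsCompact (s ∩ h ⁻¹' {G.tl d}) :=
        hs.inter_right (isClosed_singleton.preimage hh)
      obtain ⟨δ, hδ, hth⟩ := hc.exists_thickening_subset_open
        ((isOpen_interior (s := O')).preimage hh) (by
          rintro p ⟨_, hp⟩
          rw [Set.mem_preimage, Set.mem_singleton_iff] at hp
          rw [Set.mem_preimage, hp]
          exact mem_interior_iff_mem_nhds.2 hO')
      refine ⟨δ, hδ, ?_⟩
      intro p hp hpd p' hp' j hj
      apply hOj' j
      have : p' ∈ Metric.thickening δ (s ∩ h ⁻¹' {G.tl d}) := by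
        rw [Metric.mem_thickening_iff]
        exact ⟨p, ⟨hp, hpd⟩, hp'⟩
      exact ⟨h p', hj, interior_subset (hth this)⟩)
  refine ⟨min δ1 δ2, lt_min hδ1 hδ2, fun p =>
    if hp : ∃ d ∈ V, h p = G.tl d then hp.choose else
      if hp' : p ∈ s then dd (hleb p hp').choose else default, ?_, ?_⟩
  · intro p hp p' hpp j hj
    by_cases h1 : ∃ d ∈ V, h p = G.tl d
    · simp only [h1, dif_pos]
      obtain ⟨h2, h3⟩ := h1.choose_spec
      exact hV2 _ h2 p hp h3 p' (hpp.trans_le (min_le_right _ _)) j hj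
    · simp only [h1, dif_neg, not_false_eq_true, hp, dif_pos]
      have h2 := (hleb p hp).choose_spec
      apply hOj
      refine ⟨h p', hj, interior_subset ?_⟩
      exact h2 (by rw [mem_ball]; exact hpp.trans_le (min_le_left _ _))
  · intro p hp d hd hpd
    have h1 : ∃ d ∈ V, h p = G.tl d := ⟨d, hd, hpd⟩
    simp only [h1, dif_pos]
    rw [← h1.choose_spec.2, hpd]

/-- realization of a walk -/
lemma exists_loop (hC : CellSys G Fc cell inC U ρ) (z : List D) :
    ∀ v v' : M, Walk G v v' z → ∃ ζ : ℝ → M, Continuous ζ ∧ (∀ t ≤ 0, ζ t = v) ∧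
      (∀ t : ℝ, (z.length : ℝ) ≤ t → ζ t = v') ∧
      (∀ t, ζ t = v' ∨ ∃ e ∈ z, dist (ζ t) (G.tl e) ≤ ρ) ∧
      ∀ (i : ℕ) (hi : i < z.length), ζ i = G.tl z[i] ∧ ζ (i + 1) = G.hd z[i] ∧
        ∃ j, inC j z[i] ∧ ∀ t : ℝ, (i : ℝ) ≤ t → t ≤ i + 1 → ζ t ∈ cell j := by
  induction z with
  | nil =>
    intro v v' h
    have h' : v = v' := h
    subst h'
    refine ⟨fun _ => v, continuous_const, fun _ _ => rfl, fun _ _ => rfl,
      fun _ => Or.inl rfl, ?_⟩
    intro i hi
    simp at hi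
  | cons d z ih =>
    rintro v v' ⟨h1, h2⟩
    obtain ⟨ζ, hζ, hζ0, hζ1, hζd, hζc⟩ := ih _ _ h2
    obtain ⟨j, hj, α, hα, hα0, hα1, hαj⟩ := hC.path d
    have hαc : Continuous (fun t => α (clp t)) :=
      hα.comp_continuous clp_cont clp_mem
    have hζ00 : ζ 0 = G.hd d := hζ0 0 le_rfl
    have hcl0 : ∀ t : ℝ, t ≤ 0 → clp t = 0 := by
      intro t ht
      unfold clp
      rw [min_eq_left (by linarith), max_eq_left ht]
    have hcl1 : clp 1 = 1 := clp_eq ⟨zero_le_one, le_rfl⟩
    refine ⟨fun t => if t ≤ 1 then α (clp t) else ζ (t - 1), ?_, ?_, ?_, ?_, ?_⟩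
    · refine Continuous.if_le hαc (hζ.comp (continuous_id.sub continuous_const)) continuous_id
        continuous_const ?_
      intro t ht
      have ht' : t = 1 := ht
      rw [ht', hcl1, hα1]
      show G.hd d = ζ (1 - 1)
      rw [sub_self, hζ00]
    · intro t ht
      show (if t ≤ 1 then α (clp t) else ζ (t - 1)) = v
      rw [if_pos (by linarith), hcl0 t ht, hα0, h1]
    · intro t ht
      rw [List.length_cons] at ht
      push_cast at ht
      show (if t ≤ 1 then α (clp t) else ζ (t - 1)) = v'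
      have hn : (0 : ℝ) ≤ (z.length : ℝ) := Nat.cast_nonneg _
      by_cases ht1 : t ≤ 1
      · have e1 : (z.length : ℝ) = 0 := by linarith
        have e2 : t = 1 := by linarith
        rw [if_pos ht1, e2, hcl1, hα1, ← hζ00]
        exact hζ1 0 (by rw [e1])
      · rw [if_neg ht1]
        exact hζ1 _ (by linarith)
    · intro t
      show (if t ≤ 1 then α (clp t) else ζ (t - 1)) = v' ∨
        ∃ e ∈ d :: z, dist (if t ≤ 1 then α (clp t) else ζ (t - 1)) (G.tl e) ≤ ρ
      by_cases ht1 : t ≤ 1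
      · right
        rw [if_pos ht1]
        exact ⟨d, List.mem_cons_self, hC.diam j _ (hαj _ (clp_mem t)) _ (hC.tl_mem j d hj)⟩
      · rw [if_neg ht1]
        rcases hζd (t - 1) with h3 | ⟨e, he, h3⟩
        · exact Or.inl h3
        · exact Or.inr ⟨e, List.mem_cons_of_mem _ he, h3⟩
    · intro i hi
      cases i with
      | zero =>
        refine ⟨?_, ?_, j, hj, ?_⟩
        · show (if ((0 : ℕ) : ℝ) ≤ 1 then α (clp ((0 : ℕ) : ℝ)) else ζ (((0 : ℕ) : ℝ) - 1)) =
            G.tl d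
          rw [if_pos (by norm_num), Nat.cast_zero, hcl0 0 le_rfl, hα0]
        · show (if ((0 : ℕ) : ℝ) + 1 ≤ 1 then α (clp (((0 : ℕ) : ℝ) + 1)) else
            ζ (((0 : ℕ) : ℝ) + 1 - 1)) = G.hd d
          rw [if_pos (by norm_num), Nat.cast_zero, zero_add, hcl1, hα1]
        · intro t _ ht
          show (if t ≤ 1 then α (clp t) else ζ (t - 1)) ∈ cell j
          rw [Nat.cast_zero, zero_add] at ht
          rw [if_pos ht]
          exact hαj _ (clp_mem t)
      | succ i =>
        have hi' : i < z.length := by simpa using hi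
        obtain ⟨a1, a2, j', hj', a3⟩ := hζc i hi'
        have hnn : (0 : ℝ) ≤ (i : ℝ) := Nat.cast_nonneg _
        have e0 : (d :: z)[i + 1] = z[i] := rfl
        rw [e0]
        have key : ∀ t : ℝ, (i : ℝ) + 1 ≤ t →
            (if t ≤ 1 then α (clp t) else ζ (t - 1)) = ζ (t - 1) := by
          intro t ht
          by_cases ht1 : t ≤ 1
          · have e2 : t = 1 := by linarith
            rw [if_pos ht1, e2, hcl1, hα1, sub_self, hζ00]
          · rw [if_neg ht1]
        refine ⟨?_, ?_, j', hj', ?_⟩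
        · show (if ((i + 1 : ℕ) : ℝ) ≤ 1 then α (clp ((i + 1 : ℕ) : ℝ)) else
            ζ (((i + 1 : ℕ) : ℝ) - 1)) = G.tl z[i]
          rw [key _ (by push_cast; linarith)]
          push_cast
          rw [add_sub_cancel_right, a1]
        · show (if ((i + 1 : ℕ) : ℝ) + 1 ≤ 1 then α (clp (((i + 1 : ℕ) : ℝ) + 1)) else
            ζ (((i + 1 : ℕ) : ℝ) + 1 - 1)) = G.hd z[i]
          rw [key _ (by push_cast; linarith)]
          push_cast
          rw [add_sub_cancel_right, a2]
        · intro t ht1 ht2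
          show (if t ≤ 1 then α (clp t) else ζ (t - 1)) ∈ cell j'
          push_cast at ht1 ht2
          rw [key t ht1]
          exact a3 _ (by linarith) (by linarith)

end

end H124

end Pool.Agent.TH317.CC
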