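import Pool.Agent.TH317.CC.Alg

/-! Job CC-A3 (project of helper317 on MP_86dbc7_gt): rotation invariance of `K (p-1)`. -/

set_option autoImplicit false
set_option linter.unusedSectionVars false

namespace Pool.Agent.TH317.CC

open Finset

namespace H124

section
variable {D E Λ R S : Type*} [LinearOrder Λ] [CommRing R] [CommRing S] [Inhabited D] [Inhabited E]

lemma pass_map (i o : D → Λ) (π : E → D) (w : List E) (k : ℕ) (hk : k < w.length) :
    pass (fun x => i (π x)) (fun x => o (π x)) w k = pass i o (w.map π) k := by
  unfold pass
  have h1 : ∀ m, m < w.length → (w.map π).getD m default = π (w.getD m default) := by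
    intro m hm
    rw [List.getD_eq_getElem _ _ hm, List.getD_eq_getElem _ _ (by simpa using hm),
      List.getElem_map]
  rw [h1 k hk, List.length_map, h1]
  split_ifs <;> omega

lemma leaf_map (π : E → D) (w : List E) (j k : ℕ) : leaf (w.map π) j k = (leaf w j k).map π := by
  simp [leaf, List.map_take, List.map_drop]

lemma rest_map (π : E → D) (w : List E) (j k : ℕ) : rest (w.map π) j k = (rest w j k).map π := by
  simp [rest, List.map_take, List.map_drop]

lemma L_map (i o : D → Λ) (π : E → D) (X g : List D → R) (w : List E) :
    L (fun x => i (π x)) (fun x => o (π x)) (fun v => X (v.map π)) (fun v => g (v.map π)) w =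
      L i o X g (w.map π) := by
  unfold L
  rw [List.length_map]
  refine Finset.sum_congr rfl fun k hk => Finset.sum_congr rfl fun j hj => ?_
  rw [mem_range] at hk hj
  rw [leaf_map, rest_map]
  unfold cf
  rw [pass_map i o π w j (by omega), pass_map i o π w k hk]

lemma K_map (i o : D → Λ) (π : E → D) (X : List D → R) (n : ℕ) (w : List E) :
    K (fun x => i (π x)) (fun x => o (π x)) (fun v => X (v.map π)) n w = K i o X n (w.map π) := by
  induction n generalizing w with
  | zero => rfl
  | succ n ih =>
    show L _ _ _ (K _ _ _ n) w = L i o X (K i o X n) (w.map π)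
    rw [← L_map]
    congr 1
    funext v
    exact ih v

lemma L_hom (i o : D → Λ) (φ : R →+* S) (X g : List D → R) (w : List D) :
    φ (L i o X g w) = L i o (fun v => φ (X v)) (fun v => φ (g v)) w := by
  unfold L
  simp only [map_sum, map_mul, map_intCast]

lemma br_hom (i o : D → Λ) (φ : R →+* S) (X g : List D → R) (w : List D) :
    φ (br i o X g w) = br i o (fun v => φ (X v)) (fun v => φ (g v)) w := by
  unfold br
  rw [map_sub, L_hom, L_hom]

lemma iter_hom (i o : D → Λ) (φ : R →+* S) (X g : List D → R) (n : ℕ) :
    (fun v => φ (((br i o X)^[n] g) v)) = (br i o (fun v => φ (X v)))^[n] (fun v => φ (g v)) := by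
  induction n with
  | zero => rfl
  | succ n ih =>
    rw [Function.iterate_succ_apply', Function.iterate_succ_apply', ← ih]
    funext v
    exact br_hom i o φ X _ v

end

/-- number of the marked letters -/
def nn {D : Type*} (w : List (Option D)) : ℕ := w.countP Option.isNone

lemma nn_cut {D : Type*} (w : List (Option D)) (j k : ℕ) (hjk : j ≤ k) :
    nn (leaf w j k) + nn (rest w j k) = nn w := by
  have h1 : nn w = nn (w.take k) + nn (w.drop k) := by
    unfold nn
    rw [← List.countP_append, List.take_append_drop]
  have h2 : nn (w.take k) = nn (w.take j) + nn (leaf w j k) := by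
    unfold nn leaf
    have h3 : w.take j = (w.take k).take j := by
      rw [List.take_take, min_eq_left hjk]
    rw [h3, ← List.countP_append, List.take_append_drop]
  have h4 : nn (rest w j k) = nn (w.take j) + nn (w.drop k) := by
    unfold nn rest
    rw [List.countP_append]
  omega

section
variable {D Λ R : Type*} [LinearOrder Λ] [CommRing R] [Inhabited D]

/-- the part without marked letters -/
def X0 (X' : List (Option D) → R) (w : List (Option D)) : R := if nn w = 0 then X' w else 0

/-- the part with marked letters -/
def X1 (X' : List (Option D) → R) (w : List (Option D)) : R := if nn w = 0 then 0 else X' w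

/-- the generating polynomial -/
noncomputable def PP (X' : List (Option D) → R) (w : List (Option D)) : Polynomial R :=
  Polynomial.C (X0 X' w) + Polynomial.X * Polynomial.C (X1 X' w)

lemma PP_zero (X' : List (Option D) → R) (w : List (Option D)) (h : nn w = 0) :
    PP X' w = Polynomial.C (X' w) := by
  simp [PP, X0, X1, h]

lemma PP_one (X' : List (Option D) → R) (w : List (Option D)) (h : nn w = 1) :
    PP X' w = Polynomial.X * Polynomial.C (X' w) := by
  simp [PP, X0, X1, h]

lemma K_claim (i o : Option D → Λ) (X' : List (Option D) → R) (n : ℕ) (w : List (Option D)) :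
    (nn w = 0 → K i o (PP X') n w = Polynomial.C (K i o X' n w)) ∧
    (nn w = 1 → K i o (PP X') n w = Polynomial.X * Polynomial.C (K i o X' n w)) := by
  induction n generalizing w with
  | zero => exact ⟨PP_zero X' w, PP_one X' w⟩
  | succ n ih =>
    constructor
    · intro hw
      show L i o (PP X') (K i o (PP X') n) w = Polynomial.C (L i o X' (K i o X' n) w)
      unfold L
      rw [map_sum]
      refine Finset.sum_congr rfl fun k hk => ?_
      rw [map_sum]
      refine Finset.sum_congr rfl fun j hj => ?_
      rw [mem_range] at hk hj
      have hcut := nn_cut w j k hj.le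
      rw [PP_zero X' _ (by omega), (ih _).1 (by omega), map_mul, map_mul, map_intCast]
    · intro hw
      show L i o (PP X') (K i o (PP X') n) w =
        Polynomial.X * Polynomial.C (L i o X' (K i o X' n) w)
      unfold L
      rw [map_sum, Finset.mul_sum]
      refine Finset.sum_congr rfl fun k hk => ?_
      rw [map_sum, Finset.mul_sum]
      refine Finset.sum_congr rfl fun j hj => ?_
      rw [mem_range] at hk hj
      have hcut := nn_cut w j k hj.le
      rw [map_mul, map_mul, map_intCast]
      rcases (by omega : (nn (leaf w j k) = 0 ∧ nn (rest w j k) = 1) ∨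
        (nn (leaf w j k) = 1 ∧ nn (rest w j k) = 0)) with ⟨h1, h2⟩ | ⟨h1, h2⟩
      · rw [PP_zero X' _ h1, (ih _).2 h2]; ring
      · rw [PP_one X' _ h1, (ih _).1 h2]; ring

lemma X01_rot (X : List D → R) (hX : ∀ a u, X (a :: u) = X (u ++ [a])) (b a : D)
    (u : List (Option D)) :
    X0 (fun w => X (w.map (fun x : Option D => x.getD b))) (some a :: u) =
      X0 (fun w => X (w.map (fun x : Option D => x.getD b))) (u ++ [some a]) ∧
    X1 (fun w => X (w.map (fun x : Option D => x.getD b))) (some a :: u) =
      X1 (fun w => X (w.map (fun x : Option D => x.getD b))) (u ++ [some a]) := by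
  have h1 : nn (some a :: u) = nn (u ++ [some a]) := by
    simp [nn]
  have h2 : X ((some a :: u).map (fun x : Option D => x.getD b)) =
      X ((u ++ [some a]).map (fun x : Option D => x.getD b)) := by
    rw [List.map_cons, List.map_append, hX]
    rfl
  unfold X0 X1
  rw [h1]
  beta_reduce
  rw [h2]
  exact ⟨rfl, rfl⟩

end

end H124

variable {D Λ R : Type*} [LinearOrder Λ] [CommRing R] [Inhabited D]

theorem K_rot_of (i o : D → Λ) (hi : Function.Injective i) (ho : Function.Injective o)
    (p : ℕ) [Fact p.Prime] [CharP R p]
    (hder : ∀ (b : D) (X Y : List (Option D) → R) (w : List (Option D)),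
      Polynomial.derivative (K (fun x : Option D => i (x.getD b)) (fun x : Option D => o (x.getD b))
        (fun w => Polynomial.C (X w) + Polynomial.X * Polynomial.C (Y w)) (p - 1) w) =
      ((br (fun x : Option D => i (x.getD b)) (fun x : Option D => o (x.getD b))
        (fun w => Polynomial.C (X w) + Polynomial.X * Polynomial.C (Y w)))^[p - 1]
        (fun w => Polynomial.C (Y w))) w)
    (hbr : ∀ (b a : D), a ≠ b →
      ∀ Y Z : List (Option D) → R, (∀ u, Y (some a :: u) = Y (u ++ [some a])) →
      (∀ u, Z (some a :: u) = Z (u ++ [some a])) → ∀ u,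
      br (fun x : Option D => i (x.getD b)) (fun x : Option D => o (x.getD b)) Y Z (some a :: u) =
      br (fun x : Option D => i (x.getD b)) (fun x : Option D => o (x.getD b)) Y Z
        (u ++ [some a]))
    (X : List D → R) (hX : ∀ a u, X (a :: u) = X (u ++ [a])) (a : D) (u : List D) :
    K i o X (p - 1) (a :: u) = K i o X (p - 1) (u ++ [a]) := by
  classical
  by_cases hall : ∀ b ∈ u, b = a
  · have h1 : u = List.replicate u.length a := List.eq_replicate_of_mem hall
    have h2 : a :: u = u ++ [a] := by
      rw [h1]
      rw [← List.replicate_succ, ← List.replicate_succ']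
    rw [h2]
  push Not at hall
  obtain ⟨b, hbu, hba⟩ := hall
  obtain ⟨u1, u2, rfl⟩ := List.append_of_mem hbu
  obtain ⟨π, hπ⟩ : ∃ π : Option D → D, π = fun x => x.getD b := ⟨_, rfl⟩
  obtain ⟨X', hX'⟩ : ∃ X' : List (Option D) → R, X' = fun w => X (w.map π) := ⟨_, rfl⟩
  -- the main identity
  have key : ∀ w : List (Option D), H124.nn w = 1 →
      K i o X (p - 1) (w.map π) = ((br (fun x : Option D => i (x.getD b))
        (fun x : Option D => o (x.getD b)) (H124.X0 X'))^[p - 1] (H124.X1 X')) w := by
    intro w hw
    have h1 := hder b (H124.X0 X') (H124.X1 X') w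
    have h2 : K (fun x : Option D => i (x.getD b)) (fun x : Option D => o (x.getD b))
        (fun w => Polynomial.C (H124.X0 X' w) + Polynomial.X * Polynomial.C (H124.X1 X' w))
        (p - 1) w = Polynomial.X * Polynomial.C (K (fun x : Option D => i (x.getD b))
          (fun x : Option D => o (x.getD b)) X' (p - 1) w) :=
      (H124.K_claim _ _ X' (p - 1) w).2 hw
    rw [h2] at h1
    have h3 : K (fun x : Option D => i (x.getD b)) (fun x : Option D => o (x.getD b)) X'
        (p - 1) w = K i o X (p - 1) (w.map π) := by
      have := H124.K_map i o π X (p - 1) w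
      rw [← this, hX', hπ]
    rw [h3] at h1
    have h4 := congrArg (Polynomial.evalRingHom (0 : R)) h1
    have h5 := congrFun (H124.iter_hom (fun x : Option D => i (x.getD b))
      (fun x : Option D => o (x.getD b)) (Polynomial.evalRingHom (0 : R))
      (fun w => Polynomial.C (H124.X0 X' w) + Polynomial.X * Polynomial.C (H124.X1 X' w))
      (fun w => Polynomial.C (H124.X1 X' w)) (p - 1)) w
    rw [h5] at h4
    simpa using h4
  -- rotation invariance of the iterates
  have hrot : ∀ n : ℕ, ∀ v : List (Option D),
      ((br (fun x : Option D => i (x.getD b)) (fun x : Option D => o (x.getD b))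
        (H124.X0 X'))^[n] (H124.X1 X')) (some a :: v) =
      ((br (fun x : Option D => i (x.getD b)) (fun x : Option D => o (x.getD b))
        (H124.X0 X'))^[n] (H124.X1 X')) (v ++ [some a]) := by
    intro n
    induction n with
    | zero =>
      intro v
      have := (H124.X01_rot X hX b a v).2
      rw [hX', hπ]
      exact this
    | succ n ih =>
      intro v
      rw [Function.iterate_succ_apply']
      refine hbr b a hba.symm _ _ ?_ ih v
      intro v'
      have := (H124.X01_rot X hX b a v').1
      rw [hX', hπ]
      exact this
  -- the marked word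
  have hmap : (u1.map some ++ none :: u2.map some).map π = u1 ++ b :: u2 := by
    rw [hπ]
    simp [List.map_map, Function.comp_def]
  have hcount : H124.nn (u1.map some ++ none :: u2.map some) = 1 := by
    unfold H124.nn
    rw [List.countP_append, List.countP_cons, List.countP_map, List.countP_map]
    simp [Function.comp_def]
  have e1 : (some a :: (u1.map some ++ none :: u2.map some)).map π = a :: (u1 ++ b :: u2) := by
    rw [List.map_cons, hmap, hπ]; rfl
  have e2 : ((u1.map some ++ none :: u2.map some) ++ [some a]).map π =
      (u1 ++ b :: u2) ++ [a] := by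
    rw [List.map_append, hmap, hπ]; rfl
  rw [← e1, ← e2, key _ (by
    have : H124.nn (some a :: (u1.map some ++ none :: u2.map some)) =
      H124.nn (u1.map some ++ none :: u2.map some) := by
      simp [H124.nn]
    rw [this, hcount]), key _ (by
    have : H124.nn ((u1.map some ++ none :: u2.map some) ++ [some a]) =
      H124.nn (u1.map some ++ none :: u2.map some) := by
      simp [H124.nn]
    rw [this, hcount])]
  exact hrot _ _

end Pool.Agent.TH317.CC
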